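import Mathlib
import Pool.Agent.Lib.MP_0fe113_an.Weak

/-! Every minimiser of the magnetic product functional on the unit square is balanced up to a
factor less than two, for every value of the magnetic field. -/

namespace Pool.Agent.Results.MP_0fe113_an.BalancedUpToTwo

open Pool.Agent.Lib.MP_0fe113_an

/-- For every field `B` and every minimiser `u` (with weak partial derivatives `g₁`, `g₂`) of
`μ(B)` on the unit square, each of the norms of the two magnetic derivatives of `u` is less than
twice the other one. -/
theorem result (B : ℝ) (u g₁ g₂ : ℝ × ℝ → ℂ) (hu : IsMinimiser B u g₁ g₂) :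
    nrm (rect 1) (mag1 B u g₁) < 2 * nrm (rect 1) (mag2 B u g₂) ∧
      nrm (rect 1) (mag2 B u g₂) < 2 * nrm (rect 1) (mag1 B u g₁) :=
  balanced hu

end Pool.Agent.Results.MP_0fe113_an.BalancedUpToTwo
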