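import Mathlib
import Pool.Agent.Lib.MP_0fe113_an.Rect

/-! For every magnetic field the square has a smaller lowest magnetic Dirichlet eigenvalue than
every rectangle of the same area and side ratio at least two. -/

namespace Pool.Agent.Results.MP_0fe113_an.LongRectangles

open Pool.Agent.Lib.MP_0fe113_an

/-- For every field `B` and every rectangle of area one and side ratio at least two, the lowest
eigenvalue of the unit square is smaller than that of the rectangle, by an explicit amount. -/
theorem result (B a : ℝ) (ha : 0 < a) (ha2 : 2 ≤ a ^ 2 ∨ a ^ 2 ≤ 1 / 2) :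
    lam B 1 + Real.exp (-|B| / 8) / (a ^ 2 + 1 / a ^ 2) ≤ lam B a :=
  lam_one_add_le ha ha2

end Pool.Agent.Results.MP_0fe113_an.LongRectangles
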